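import Pool.Agent.Helper18.SG.Goals

/-!
# Packet G2 of project SG (MP_d3128a_ag).
-/

set_option autoImplicit false

namespace Pool.Agent.Helper16.SG

open Finset Pool.Agent.Helper18.SG

theorem nv_le (R ν s z y : ℕ) : nv R ν s z y ≤ ν := by
  unfold nv
  split_ifs <;> omega

theorem nv_step (R ν s z y k : ℕ) (h : s ≤ y) : nv R ν s z (y + k) ≤ nv R ν s z y - k := by
  unfold nv
  rw [if_pos h, if_pos (by omega : s ≤ y + k)]
  split_ifs <;> omega

theorem mul_step (M v k : ℕ) (h : v ≤ M) : M * (v - k) ≤ (M - k) * v := by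
  rcases le_total v k with h1 | h1
  · rw [Nat.sub_eq_zero_of_le h1]
    simp
  · obtain ⟨w, rfl⟩ := Nat.exists_eq_add_of_le h1
    obtain ⟨x, rfl⟩ := Nat.exists_eq_add_of_le h
    have e1 : k + w - k = w := by omega
    have e2 : k + w + x - k = w + x := by omega
    rw [e1, e2]
    nlinarith [Nat.zero_le (x * k)]

theorem ell_step (M : ℕ) (R : ℕ) (ℓ : ℕ → ℕ) (hM : 1 ≤ M) (y : ℕ)
    (h0 : ∀ y, y + 1 < R → M * ℓ y + 3 * M ^ 2 ≤ M * ℓ (y + 1) + ℓ y) :
    ∀ k, y + (k + 1) < R → (M - (k + 1)) * ℓ y + 3 * M ^ 2 ≤ M * ℓ (y + (k + 1)) := by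
  intro k
  induction k with
  | zero =>
    intro h
    have h1 := h0 y (by omega)
    obtain ⟨x, rfl⟩ := Nat.exists_eq_add_of_le hM
    have e : 1 + x - (0 + 1) = x := by omega
    rw [e]
    simp only [zero_add]
    have : (1 + x) * ℓ y = ℓ y + x * ℓ y := by ring
    omega
  | succ k ih =>
    intro h
    have h1 := h0 (y + (k + 1)) (by omega)
    have h2 := ih (by omega)
    have e3 : y + (k + 1) + 1 = y + (k + 1 + 1) := by omega
    rw [e3] at h1
    obtain ⟨x, rfl⟩ := Nat.exists_eq_add_of_le hM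
    set a := ℓ (y + (k + 1)) with ha
    set b := ℓ (y + (k + 1 + 1)) with hb
    set c := ℓ y with hc
    have h3 : x * a + 3 * (1 + x) ^ 2 ≤ (1 + x) * b := by
      have : (1 + x) * a = a + x * a := by ring
      omega
    have h4 : (1 + x) * (x * a + 3 * (1 + x) ^ 2) ≤ (1 + x) * ((1 + x) * b) := Nat.mul_le_mul_left _ h3
    have h5 : x * ((1 + x - (k + 1)) * c + 3 * (1 + x) ^ 2) ≤ x * ((1 + x) * a) := Nat.mul_le_mul_left _ h2
    have h6 : (1 + x) * (1 + x - (k + 1 + 1)) ≤ x * (1 + x - (k + 1)) := by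
      rcases le_total (1 + x) (k + 1) with h7 | h7
      · have : 1 + x - (k + 1 + 1) = 0 := by omega
        rw [this]; simp
      · obtain ⟨w, hw⟩ := Nat.exists_eq_add_of_le h7
        have e1 : 1 + x - (k + 1) = w := by omega
        have e2 : 1 + x - (k + 1 + 1) = w - 1 := by omega
        rw [e1, e2]
        rcases Nat.eq_zero_or_pos w with h8 | h8
        · rw [h8]; simp
        · obtain ⟨u, rfl⟩ := Nat.exists_eq_add_of_le h8
          have e4 : 1 + u - 1 = u := by omega
          rw [e4]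
          have : u ≤ x := by omega
          nlinarith
    have h7 : (1 + x) * (1 + x - (k + 1 + 1)) * c ≤ x * (1 + x - (k + 1)) * c := Nat.mul_le_mul_right _ h6
    have h8 : (1 + x) * ((1 + x - (k + 1 + 1)) * c + 3 * (1 + x) ^ 2) ≤ (1 + x) * ((1 + x) * b) := by
      nlinarith [Nat.zero_le (x * (3 * (1 + x) ^ 2))]
    exact Nat.le_of_mul_le_mul_left h8 (by omega)

/-- PACKET G2. -/
theorem goalG2 : GoalG2 := by
  intro M S R N ν ℓ y a s z hG1 hH hO hy
  by_contra hcon
  have hNa : N ≤ a + 2 := by omega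
  have hM1 := hH.M1
  have hR1 := hH.R1
  -- totals
  have hsum : ∑ t ∈ range R, Lo R N ν s z t = ∑ t ∈ range R, ℓ t := by
    rw [← hH.tot]
    unfold Lo
    rw [Finset.sum_comm]
    refine Finset.sum_congr rfl fun c _ => ?_
    have hνR : ν c ≤ R := by have := hH.νM c; omega
    rcases Nat.lt_or_ge c a with hc | hc
    · obtain ⟨h1, h2, h3, h4⟩ := hO.st c hc
      exact hG1 R (ν c) (s c) (z c) hνR (by omega) h2 h3 h4
    · obtain ⟨h1, h2⟩ := hO.un c hc
      exact hG1 R (ν c) (s c) (z c) hνR (by omega) (by omega) (by omega) (fun _ => h2)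
  -- the rows after y
  have hrow : ∀ k, y + (k + 1) < R → Lo R N ν s z (y + (k + 1)) < ℓ (y + (k + 1)) := by
    intro k hk
    have e1 := ell_step M R ℓ hM1 y hH.h0 k hk
    have e2 : M * Lo R N ν s z (y + (k + 1)) ≤ (M - (k + 1)) * ℓ y + 2 * M ^ 2 := by
      have e3 : Lo R N ν s z (y + (k + 1)) =
          ∑ c ∈ range a, nv R (ν c) (s c) (z c) (y + (k + 1)) +
            ∑ c ∈ Ico a N, nv R (ν c) (s c) (z c) (y + (k + 1)) := by
        unfold Lo
        rw [Finset.sum_range_add_sum_Ico _ hO.aN]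
      have e4 : ∑ c ∈ Ico a N, nv R (ν c) (s c) (z c) (y + (k + 1)) ≤ 2 * M := by
        refine (Finset.sum_le_card_nsmul _ _ M fun c _ => (nv_le _ _ _ _ _).trans (hH.νM c)).trans ?_
        rw [Nat.card_Ico, smul_eq_mul]
        exact Nat.mul_le_mul_right _ (by omega)
      have e5 : M * ∑ c ∈ range a, nv R (ν c) (s c) (z c) (y + (k + 1)) ≤
          (M - (k + 1)) * ∑ c ∈ range a, nv R (ν c) (s c) (z c) y := by
        rw [Finset.mul_sum, Finset.mul_sum]
        refine Finset.sum_le_sum fun c hc => ?_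
        have h1 := hO.st c (Finset.mem_range.mp hc)
        have h2 := nv_step R (ν c) (s c) (z c) y (k + 1) h1.1
        exact (Nat.mul_le_mul_left _ h2).trans
          (mul_step M _ (k + 1) ((nv_le _ _ _ _ _).trans (hH.νM c)))
      have e6 : ∑ c ∈ range a, nv R (ν c) (s c) (z c) y ≤ ℓ y := by
        refine le_trans ?_ hO.le
        unfold Lo
        exact Finset.sum_le_sum_of_subset (Finset.range_subset_range.mpr hO.aN)
      have e7 := Nat.mul_le_mul_left (M - (k + 1)) e6
      have e8 := Nat.mul_le_mul_left M e4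
      rw [e3, mul_add]
      have e9 : M * (2 * M) = 2 * M ^ 2 := by ring
      omega
    have e10 : M * Lo R N ν s z (y + (k + 1)) < M * ℓ (y + (k + 1)) := by
      have : 0 < M ^ 2 := by positivity
      omega
    exact Nat.lt_of_mul_lt_mul_left e10
  have hlt : ∑ t ∈ range R, Lo R N ν s z t < ∑ t ∈ range R, ℓ t := by
    refine Finset.sum_lt_sum (fun t ht => ?_) ⟨y + (0 + 1), Finset.mem_range.mpr (by omega), hrow 0 (by omega)⟩
    rcases lt_trichotomy t y with h | h | h
    · exact (hO.ex t h).le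
    · rw [h]; exact hO.le
    · obtain ⟨k, rfl⟩ := Nat.exists_eq_add_of_lt h
      have := hrow k (by rw [Finset.mem_range] at ht; omega)
      exact this.le
  omega

end Pool.Agent.Helper16.SG
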