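import Pool.Agent.Helper52.SG.Goals3

/-!
Project SG, packet LIEA: commutator calculus in the lower central series
-/

set_option autoImplicit false

namespace Pool.Agent.Helper16.SG.LIEA

open Subgroup Pool.Agent.Helper52.SG
open scoped commutatorElement

variable {B : Type} [Group B]

/-- three subgroups lemma modulo a normal subgroup -/
theorem three {H₁ H₂ H₃ N : Subgroup B} [N.Normal] (h1 : ⁅⁅H₂, H₃⁆, H₁⁆ ≤ N)
    (h2 : ⁅⁅H₃, H₁⁆, H₂⁆ ≤ N) : ⁅⁅H₁, H₂⁆, H₃⁆ ≤ N := by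
  have key : ∀ K : Subgroup B, K ≤ N ↔ K.map (QuotientGroup.mk' N) = ⊥ := by
    intro K
    rw [Subgroup.map_eq_bot_iff, QuotientGroup.ker_mk']
  rw [key, map_commutator, map_commutator] at h1 h2 ⊢
  exact commutator_commutator_eq_bot_of_rotate h1 h2

theorem comm_le (n : ℕ) : ∀ m : ℕ, ⁅Gm B m, Gm B n⁆ ≤ Gm B (m + n + 1) := by
  induction n with
  | zero => intro m; exact le_of_eq rfl
  | succ n ih =>
    intro m
    rw [commutator_comm]
    change ⁅⁅Gm B n, ⊤⁆, Gm B m⁆ ≤ _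
    apply three
    · rw [commutator_comm ⊤ (Gm B m)]
      refine le_trans (ih (m + 1)) (le_of_eq ?_)
      congr 1
      omega
    · refine le_trans (commutator_mono (ih m) le_rfl) (le_of_eq ?_)
      rfl

theorem t1 (m n : ℕ) (x y : B) (hx : x ∈ Gm B m) (hy : y ∈ Gm B n) : ⁅x, y⁆ ∈ Gm B (m + n + 1) :=
  comm_le n m (commutator_mem_commutator hx hy)

/-- the image of `Γ_k` is central modulo `Γ_{k+1}` -/
theorem cen {k k' : ℕ} {x : B} (hx : x ∈ Gm B k) (hk : k' = k + 1) (y : B) :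
    (x : B ⧸ Gm B k') * (y : B ⧸ Gm B k') = (y : B ⧸ Gm B k') * (x : B ⧸ Gm B k') := by
  subst hk
  rw [← QuotientGroup.mk_mul, ← QuotientGroup.mk_mul, eq_comm, QuotientGroup.eq]
  have h : ⁅x⁻¹, y⁻¹⁆ ∈ Gm B (k + 1) := commutator_mem_commutator (inv_mem hx) (mem_top _)
  rw [commutatorElement_def] at h
  simpa [mul_assoc] using h

theorem t2 (m n : ℕ) (x x' y : B) (hx' : x' ∈ Gm B m) (hy : y ∈ Gm B n) :
    ((⁅x * x', y⁆ : B) : B ⧸ Gm B (m + n + 2)) = ((⁅x, y⁆ * ⁅x', y⁆ : B) : B ⧸ Gm B (m + n + 2)) := by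
  have h : ⁅x * x', y⁆ = x * ⁅x', y⁆ * x⁻¹ * ⁅x, y⁆ := by
    simp only [commutatorElement_def]; group
  have h1 := t1 m n x' y hx' hy
  have c1 := cen (k' := m + n + 2) h1 rfl x
  have c2 := cen (k' := m + n + 2) h1 rfl ⁅x, y⁆
  rw [h]
  simp only [QuotientGroup.mk_mul, QuotientGroup.mk_inv]
  rw [← c1, mul_inv_cancel_right, c2]

theorem t3 (m n : ℕ) (x y y' : B) (hx : x ∈ Gm B m) (hy' : y' ∈ Gm B n) :
    ((⁅x, y * y'⁆ : B) : B ⧸ Gm B (m + n + 2)) = ((⁅x, y⁆ * ⁅x, y'⁆ : B) : B ⧸ Gm B (m + n + 2)) := by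
  have h : ⁅x, y * y'⁆ = ⁅x, y⁆ * (y * ⁅x, y'⁆ * y⁻¹) := by
    simp only [commutatorElement_def]; group
  have h1 := t1 m n x y' hx hy'
  have c1 := cen (k' := m + n + 2) h1 rfl y
  rw [h]
  simp only [QuotientGroup.mk_mul, QuotientGroup.mk_inv]
  rw [← c1, mul_inv_cancel_right]

theorem congr {p q : ℕ} {a a' z : B} (h : (a : B ⧸ Gm B (p + 1)) = (a' : B ⧸ Gm B (p + 1)))
    (hz : z ∈ Gm B q) :
    ((⁅a, z⁆ : B) : B ⧸ Gm B (p + q + 2)) = ((⁅a', z⁆ : B) : B ⧸ Gm B (p + q + 2)) := by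
  rw [QuotientGroup.eq] at h
  obtain ⟨u, rfl⟩ : ∃ u, a' = a * u := ⟨a⁻¹ * a', by group⟩
  rw [inv_mul_cancel_left] at h
  have h1 := t1 (p + 1) q u z h hz
  have e : p + 1 + q + 1 = p + q + 2 := by omega
  rw [e] at h1
  have h2 : ⁅a * u, z⁆ = a * ⁅u, z⁆ * a⁻¹ * ⁅a, z⁆ := by
    simp only [commutatorElement_def]; group
  have h3 : ((⁅u, z⁆ : B) : B ⧸ Gm B (p + q + 2)) = 1 := (QuotientGroup.eq_one_iff _).2 h1
  rw [h2]
  simp only [QuotientGroup.mk_mul, QuotientGroup.mk_inv]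
  rw [h3, mul_one, mul_inv_cancel, one_mul]

/-- one factor of the Hall-Witt identity -/
theorem fac (l m n : ℕ) (x y z : B) (hx : x ∈ Gm B l) (hy : y ∈ Gm B m) (hz : z ∈ Gm B n) :
    ((y * ⁅⁅y⁻¹, x⁆, z⁆ * y⁻¹ : B) : B ⧸ Gm B (l + m + n + 3)) =
      ((⁅⁅x, y⁆, z⁆ : B) : B ⧸ Gm B (l + m + n + 3)) := by
  have h1 := t1 l m x y hx hy
  have h2 : ((⁅y⁻¹, x⁆ : B) : B ⧸ Gm B (l + m + 1 + 1)) = ((⁅x, y⁆ : B) : B ⧸ Gm B (l + m + 1 + 1)) := by
    have h : ⁅y⁻¹, x⁆ = y⁻¹ * ⁅x, y⁆ * y := by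
      simp only [commutatorElement_def]; group
    have c1 := cen (k' := l + m + 1 + 1) h1 rfl y
    rw [h]
    simp only [QuotientGroup.mk_mul, QuotientGroup.mk_inv]
    rw [mul_assoc, c1, inv_mul_cancel_left]
  have e : l + m + 1 + n + 2 = l + m + n + 3 := by omega
  have h3 := congr h2 hz
  rw [e] at h3
  have h4 : ⁅⁅y⁻¹, x⁆, z⁆ ∈ Gm B (l + m + n + 2) := by
    have h5 := t1 m l y⁻¹ x (inv_mem hy) hx
    have h6 := t1 (m + l + 1) n _ z h5 hz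
    have e' : m + l + 1 + n + 1 = l + m + n + 2 := by omega
    rwa [e'] at h6
  have c2 := cen (k' := l + m + n + 3) h4 rfl y
  simp only [QuotientGroup.mk_mul, QuotientGroup.mk_inv]
  rw [← c2, mul_inv_cancel_right]
  exact h3

theorem hallWitt (x y z : B) :
    (y * ⁅⁅y⁻¹, x⁆, z⁆ * y⁻¹) * (z * ⁅⁅z⁻¹, y⁆, x⁆ * z⁻¹) * (x * ⁅⁅x⁻¹, z⁆, y⁆ * x⁻¹) = 1 := by
  simp only [commutatorElement_def]; group

theorem t : S_LIEA := by
  intro B _
  refine ⟨t1, ?_, ?_, ?_⟩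
  · intro m n x x' y _ hx' hy
    rw [← QuotientGroup.eq]
    exact (t2 m n x x' y hx' hy).symm
  · intro m n x y y' hx _ hy'
    rw [← QuotientGroup.eq]
    exact (t3 m n x y y' hx hy').symm
  · intro l m n x y z hx hy hz
    rw [← QuotientGroup.eq_one_iff]
    have h1 := fac l m n x y z hx hy hz
    have h2 := fac m n l y z x hy hz hx
    have h3 := fac n l m z x y hz hx hy
    have e2 : m + n + l + 3 = l + m + n + 3 := by omega
    have e3 : n + l + m + 3 = l + m + n + 3 := by omega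
    rw [e2] at h2
    rw [e3] at h3
    rw [QuotientGroup.mk_mul, QuotientGroup.mk_mul, ← h1, ← h2, ← h3, ← QuotientGroup.mk_mul,
      ← QuotientGroup.mk_mul, hallWitt, QuotientGroup.mk_one]

end Pool.Agent.Helper16.SG.LIEA

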