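import Pool.Agent.Helper52.SG.Goals2

/-!
Project SG, packet MC3: `K/T` is abelian
-/

set_option autoImplicit false

namespace Pool.Agent.Helper16.SG.MC3

open Subgroup Pool.Agent.Helper52.SG
open scoped Pointwise commutatorElement

variable {G : Type} [Group G] {r : ℕ} {P T K : Subgroup G}

theorem mem_T (hr : r.Prime) (hTK : TK r T K) {x : G} (hx : x ∈ K) {n : ℕ} (hn : x ^ r ^ n = 1) :
    x ∈ T := by
  obtain ⟨m, hm, hxm⟩ := hTK.pr x hx
  have hc : Nat.gcd (r ^ n) m = 1 := (((Nat.Prime.coprime_iff_not_dvd hr).2 hm).pow_left n)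
  have h1 : (1 : ℤ) = ((r ^ n : ℕ) : ℤ) * Nat.gcdA (r ^ n) m + m * Nat.gcdB (r ^ n) m := by
    rw [← Nat.gcd_eq_gcd_ab, hc]; rfl
  have h2 : x = (x ^ m) ^ (Nat.gcdB (r ^ n) m) := by
    conv_lhs => rw [← zpow_one x, h1, zpow_add, zpow_mul, zpow_natCast, hn, one_zpow, one_mul,
      zpow_mul, zpow_natCast]
  rw [h2]
  exact zpow_mem hxm _

theorem lemA (hMC : MC r G P) (hTK : TK r T K)
    (h2 : ∀ L : Subgroup G, P ≤ L → L ≠ ⊤ → L = P) {H : Subgroup G} (hTH : T ≤ H) (hHK : H ≤ K)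
    (hn : P ≤ normalizer (H : Set G)) : H = T ∨ H = K := by
  have hP : ∀ x ∈ P, x ∈ K → x ∈ T := by
    intro x hx hxK
    obtain ⟨n, hn⟩ := hMC.pg ⟨x, hx⟩
    refine mem_T hMC.hr hTK hxK (n := n) ?_
    have := congrArg Subtype.val hn
    simpa using this
  by_cases hL : H ⊔ P = ⊤
  · right
    refine le_antisymm hHK fun x hx => ?_
    have hx' : x ∈ ((H ⊔ P : Subgroup G) : Set G) := by rw [hL]; trivial
    rw [coe_mul_of_right_le_normalizer_left H P hn] at hx'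
    obtain ⟨h, hh, p, hp, rfl⟩ := hx'
    have hpK : p ∈ K := by
      have := mul_mem (inv_mem (hHK hh)) hx
      simpa using this
    exact mul_mem hh (hTH (hP p hp hpK))
  · left
    have h3 := h2 (H ⊔ P) le_sup_right hL
    refine le_antisymm (fun x hx => ?_) hTH
    have h4 : x ∈ H ⊔ P := (le_sup_left : H ≤ H ⊔ P) hx
    rw [h3] at h4
    exact hP x h4 (hHK hx)

theorem t (hMC2 : S_MC2) : S_MC3 := by
  intro G _ r P T K hMC hTK x hx y hy
  obtain ⟨h1, h2, -, h4⟩ := hMC2 G r P T K hMC hTK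
  haveI := hMC.fin
  haveI : Fact r.Prime := ⟨hMC.hr⟩
  haveI : T.Normal := hTK.or.1
  haveI : K.Normal := hTK.nor
  have hKT : K ≠ T := by
    intro he
    apply hMC.bad
    rw [he, sup_eq_right.2 h1] at h4
    have h5 : ∀ z : G, ¬ r ∣ orderOf z → z = 1 := by
      intro z hz
      obtain ⟨n, hn⟩ := hMC.pg ⟨z, by rw [h4]; trivial⟩
      have h6 : z ^ r ^ n = 1 := by
        have := congrArg Subtype.val hn
        simpa using this
      have h7 := orderOf_dvd_of_pow_eq_one h6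
      have h8 : Nat.Coprime (orderOf z) (r ^ n) :=
        (((Nat.Prime.coprime_iff_not_dvd hMC.hr).2 hz).pow_left n).symm
      exact orderOf_eq_one_iff.1 (Nat.Coprime.eq_one_of_dvd h8 h7)
    intro z _ w _ hz hw
    rw [h5 z hz, h5 w hw, mul_one, orderOf_one]
    exact hMC.hr.one_lt.ne' ∘ Nat.dvd_one.1
  let π : G →* G ⧸ T := QuotientGroup.mk' T
  have hπ1 : ∀ z : G, π z = 1 ↔ z ∈ T := fun z => QuotientGroup.eq_one_iff z
  have hπs : Function.Surjective π := QuotientGroup.mk'_surjective T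
  let Kb : Subgroup (G ⧸ T) := K.map π
  haveI : Kb.Normal := Subgroup.Normal.map hTK.nor π hπs
  have hKb : ∀ z : G, π z ∈ Kb → z ∈ K := by
    rintro z ⟨k, hk, hkz⟩
    have h5 : π (k⁻¹ * z) = 1 := by rw [map_mul, map_inv, hkz, inv_mul_cancel]
    have h6 := mul_mem hk (hTK.le ((hπ1 _).1 h5))
    simpa using h6
  have hcard : ¬ r ∣ Nat.card Kb := by
    intro hd
    obtain ⟨⟨z, hz⟩, hzo⟩ := exists_prime_orderOf_dvd_card' r hd
    obtain ⟨k, hk, rfl⟩ := hz
    obtain ⟨m, hm, hkm⟩ := hTK.pr k hk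
    apply hm
    rw [← hzo, orderOf_dvd_iff_pow_eq_one]
    apply Subtype.ext
    change (π k) ^ m = 1
    rw [← map_pow]
    exact (hπ1 _).2 hkm
  have hKbne : Kb ≠ ⊥ := by
    intro he
    apply hKT
    refine le_antisymm (fun z hz => ?_) hTK.le
    have h5 : π z ∈ Kb := ⟨z, hz, rfl⟩
    rw [he, mem_bot] at h5
    exact (hπ1 z).1 h5
  haveI : Nontrivial Kb := (Subgroup.nontrivial_iff_ne_bot Kb).2 hKbne
  let φ : P →* MulAut Kb := ((MulAut.conjNormal (H := Kb)).comp π).comp P.subtype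
  letI : MulDistribMulAction P Kb := MulDistribMulAction.compHom Kb φ
  obtain ⟨q, hq, hqd⟩ : ∃ q : ℕ, q.Prime ∧ q ∣ Nat.card Kb :=
    Nat.exists_prime_and_dvd (Finite.one_lt_card.ne')
  haveI : Fact q.Prime := ⟨hq⟩
  obtain ⟨S, hS⟩ := hMC.pg.nonempty_fixed_point_of_prime_not_dvd_card (Sylow q Kb)
    (fun hd => hcard (hd.trans ((default : Sylow q Kb).card_dvd_index.trans
      (Subgroup.index_dvd_card _))))
  have hSinv : ∀ p : P, ∀ s : Kb, s ∈ (S : Subgroup Kb) → p • s ∈ (S : Subgroup Kb) := by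
    intro p s hs
    have h5 : p • S = S := hS p
    have h6 : p • s ∈ p • (S : Subgroup Kb) := Subgroup.smul_mem_pointwise_smul s p _ hs
    rwa [← Sylow.pointwise_smul_def, h5] at h6
  let H : Subgroup G := ((S : Subgroup Kb).map Kb.subtype).comap π
  have hTH : T ≤ H := by
    intro t ht
    change π t ∈ (S : Subgroup Kb).map Kb.subtype
    rw [(hπ1 t).2 ht]
    exact one_mem _
  have hHK : H ≤ K := by
    rintro z ⟨s, hs, hsz⟩
    apply hKb
    rw [← hsz]
    exact s.2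
  have hcj : ∀ p ∈ P, ∀ z ∈ H, p * z * p⁻¹ ∈ H := by
    rintro p hp z ⟨s, hs, hsz⟩
    refine ⟨(⟨p, hp⟩ : P) • s, hSinv _ s hs, ?_⟩
    have h5 : Kb.subtype ((⟨p, hp⟩ : P) • s) = π p * (s : G ⧸ T) * (π p)⁻¹ := rfl
    have h6 : (s : G ⧸ T) = π z := hsz
    rw [h5, h6, map_mul, map_mul, map_inv]
  have hn : P ≤ normalizer (H : Set G) := by
    intro p hp
    rw [Subgroup.mem_normalizer_iff]
    intro z
    refine ⟨fun hz => hcj p hp z hz, fun hz => ?_⟩
    have h5 := hcj p⁻¹ (inv_mem hp) _ hz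
    have h6 : p⁻¹ * (p * z * p⁻¹) * p⁻¹⁻¹ = z := by group
    rwa [h6] at h5
  have hHT : H ≠ T := by
    intro he
    apply S.ne_bot_of_dvd_card hqd
    rw [eq_bot_iff]
    intro s hs
    obtain ⟨k, hk, hks⟩ : ∃ k ∈ K, π k = (s : G ⧸ T) := s.2
    have h5 : k ∈ H := ⟨s, hs, hks.symm⟩
    rw [he] at h5
    rw [mem_bot]
    apply Subtype.ext
    change (s : G ⧸ T) = 1
    rw [← hks]
    exact (hπ1 k).2 h5
  have hHK' : H = K := (lemA hMC hTK h2 hTH hHK hn).resolve_left hHT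
  have hSt : ∀ s : Kb, s ∈ (S : Subgroup Kb) := by
    intro s
    obtain ⟨k, hk, hks⟩ : ∃ k ∈ K, π k = (s : G ⧸ T) := s.2
    rw [← hHK'] at hk
    obtain ⟨s', hs', hsk⟩ := hk
    have h5 : s' = s := Subtype.ext (hsk.trans hks)
    rwa [← h5]
  have hq' : IsPGroup q Kb := by
    intro s
    obtain ⟨n, hn⟩ := S.isPGroup' ⟨s, hSt s⟩
    refine ⟨n, ?_⟩
    have := congrArg Subtype.val hn
    simpa using this
  haveI : Group.IsNilpotent Kb := hq'.isNilpotent
  have hlt : _root_.commutator Kb < ⊤ := Group.IsSolvable.commutator_lt_top_of_nontrivial Kb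
  let C : Subgroup (G ⧸ T) := ⁅Kb, Kb⁆
  let H' : Subgroup G := C.comap π
  have hCK : C ≤ Kb := commutator_le_left Kb Kb
  have hTH' : T ≤ H' := by
    intro t ht
    change π t ∈ C
    rw [(hπ1 t).2 ht]
    exact one_mem _
  have hHK2 : H' ≤ K := fun z hz => hKb z (hCK hz)
  haveI : C.Normal := Subgroup.commutator_normal Kb Kb
  haveI : H'.Normal := Subgroup.Normal.comap inferInstance π
  have hn' : P ≤ normalizer (H' : Set G) := by
    rw [normalizer_eq_top_iff.2 inferInstance]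
    exact le_top
  have hH'T : H' = T := by
    refine (lemA hMC hTK h2 hTH' hHK2 hn').resolve_right fun he => ?_
    apply hlt.ne
    rw [eq_top_iff]
    intro s _
    obtain ⟨k, hk, hks⟩ : ∃ k ∈ K, π k = (s : G ⧸ T) := s.2
    rw [← he] at hk
    have h5 : (s : G ⧸ T) ∈ C := by
      rw [← hks]
      exact hk
    have h6 : (s : G ⧸ T) ∈ (_root_.commutator Kb).map Kb.subtype := by
      rw [map_subtype_commutator]
      exact h5
    obtain ⟨s', hs', hss⟩ := h6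
    have h7 : s' = s := Subtype.ext hss
    rwa [← h7]
  rw [← hH'T]
  change π (x⁻¹ * (y⁻¹ * x * y)) ∈ C
  have h5 : ⁅π x⁻¹, π y⁻¹⁆ ∈ C := commutator_mem_commutator ⟨x⁻¹, inv_mem hx, rfl⟩
    ⟨y⁻¹, inv_mem hy, rfl⟩
  rw [← map_commutatorElement, commutatorElement_def] at h5
  have h6 : x⁻¹ * y⁻¹ * x⁻¹⁻¹ * y⁻¹⁻¹ = x⁻¹ * (y⁻¹ * x * y) := by group
  rwa [h6] at h5

end Pool.Agent.Helper16.SG.MC3
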